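import Pool.Agent.Helper87.Nec

set_option autoImplicit false

namespace Pool.Agent.Results.MP_df1f63_gt.ReverseAltitudes

open Pool.Agent.Helper87.HilbertPlane Filter Topology Set

/-- The Hilbert distance of `K`: for `P ≠ Q` in `K` the line `PQ` meets the boundary in
`I = P - s (Q - P)` and `J = P + t (Q - P)`, so that `|IP| = s |PQ|`, `|IQ| = (1 + s) |PQ|`,
`|PJ| = t |PQ|`, `|QJ| = (t - 1) |PQ|`; the distance is `(1/2) log (|IQ||PJ| / (|IP||QJ|))`. -/
noncomputable def hilbertDist (K : Set (ℝ × ℝ)) (P Q : ℝ × ℝ) : ℝ :=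
  (1 / 2) * Real.log
        (((1 + sSup {s : ℝ | 0 ≤ s ∧ P - s • (Q - P) ∈ K}) *
            sSup {t : ℝ | 0 ≤ t ∧ P + t • (Q - P) ∈ K}) /
          (sSup {s : ℝ | 0 ≤ s ∧ P - s • (Q - P) ∈ K} *
            (sSup {t : ℝ | 0 ≤ t ∧ P + t • (Q - P) ∈ K} - 1)))

/-- The line `ℓ` is perpendicular to the line `m`: they meet at a point `F` of `K`, and `F` is a
nearest point of `m ∩ K` to every point of `ℓ ∩ K`. -/
def Perp (K : Set (ℝ × ℝ)) (ℓ m : AffineSubspace ℝ (ℝ × ℝ)) : Prop :=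
  ∃ F ∈ K, F ∈ ℓ ∧ F ∈ m ∧
    ∀ X ∈ ℓ, X ∈ K → ∀ Y ∈ m, Y ∈ K → hilbertDist K X F ≤ hilbertDist K X Y

/-- `m` is a reverse altitude from `A` of the triangle `ABC`: a line through `A` such that the
side line `BC` is perpendicular to `m`. -/
def IsReverseAltitude (K : Set (ℝ × ℝ)) (A B C : ℝ × ℝ) (m : AffineSubspace ℝ (ℝ × ℝ)) : Prop :=
  Module.finrank ℝ m.direction = 1 ∧ A ∈ m ∧ Perp K (affineSpan ℝ {B, C}) m

/-- Three lines of the affine plane form a pencil: they have a common point in the plane, or they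
are parallel (common point at infinity of the projective plane). -/
def IsPencil (a b c : AffineSubspace ℝ (ℝ × ℝ)) : Prop :=
  (∃ P, P ∈ a ∧ P ∈ b ∧ P ∈ c) ∨ (a.direction = b.direction ∧ b.direction = c.direction)

lemma mem_line_iff (a b x : ℝ × ℝ) :
    x ∈ affineSpan ℝ ({a, b} : Set (ℝ × ℝ)) ↔ ∃ θ : ℝ, x = a + θ • (b - a) := by
  rw [mem_affineSpan_pair_iff_exists_lineMap_eq]
  constructor
  · rintro ⟨θ, rfl⟩
    exact ⟨θ, by rw [AffineMap.lineMap_apply, vsub_eq_sub, vadd_eq_add, add_comm]⟩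
  · rintro ⟨θ, rfl⟩
    exact ⟨θ, by rw [AffineMap.lineMap_apply, vsub_eq_sub, vadd_eq_add, add_comm]⟩

/-- Sanity check: the defining formula of the Hilbert distance in terms of the two boundary
points `I`, `J` of the line `PQ` (`I, P, Q, J` in this order), with Euclidean lengths. -/
theorem hilbertDist_eq {K : Set (ℝ × ℝ)} (hK : IsOpen K) (hc : Convex ℝ K)
    {P Q I J : ℝ × ℝ} (hP : P ∈ K) (hQ : Q ∈ K) (hI : I ∈ frontier K) (hJ : J ∈ frontier K)
    (hIPQ : Sbtw ℝ I P Q) (hPQJ : Sbtw ℝ P Q J) :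
    hilbertDist K P Q = (1 / 2) * Real.log
      ((Real.sqrt ((I.1 - Q.1)^2 + (I.2 - Q.2)^2) * Real.sqrt ((P.1 - J.1)^2 + (P.2 - J.2)^2)) /
       (Real.sqrt ((I.1 - P.1)^2 + (I.2 - P.2)^2) * Real.sqrt ((Q.1 - J.1)^2 + (Q.2 - J.2)^2))) := by
  have hPQ : P ≠ Q := hIPQ.ne_right
  rw [hK.frontier_eq] at hI hJ
  -- parameters
  obtain ⟨u, ⟨hu0, hu1⟩, hu⟩ := hIPQ.wbtw
  obtain ⟨v, ⟨hv0, hv1⟩, hv⟩ := hPQJ.wbtw
  rw [AffineMap.lineMap_apply, vsub_eq_sub, vadd_eq_add] at hu hv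
  have hune : u ≠ 1 := by
    rintro rfl
    apply hPQ
    rw [one_smul, sub_add_cancel] at hu
    exact hu.symm
  have hvne : v ≠ 0 := by
    rintro rfl
    apply hPQ
    rw [zero_smul, zero_add] at hv
    exact hv
  have hune0 : u ≠ 0 := by
    rintro rfl
    rw [zero_smul, zero_add] at hu
    exact hI.2 (hu ▸ hP)
  have hvne1 : v ≠ 1 := by
    rintro rfl
    rw [one_smul, sub_add_cancel] at hv
    exact hJ.2 (hv ▸ hQ)
  have hu1' : 0 < 1 - u := sub_pos.2 (lt_of_le_of_ne hu1 hune)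
  have hv0' : 0 < v := lt_of_le_of_ne hv0 (Ne.symm hvne)
  have hu0' : 0 < u := lt_of_le_of_ne hu0 (Ne.symm hune0)
  have hv1' : 0 < 1 - v := sub_pos.2 (lt_of_le_of_ne hv1 hvne1)
  -- I = P + (u/(1-u)) (P - Q), J = P + (1/v) (Q - P)
  have eI : I = P + (u / (1 - u)) • (P - Q) := by
    have h1 : (1 - u) • I + u • Q = P := by rw [← hu]; module
    have : (1 - u) • I = (1 - u) • (P + (u / (1 - u)) • (P - Q)) := by
      rw [smul_add, smul_smul, mul_div_cancel₀ _ hu1'.ne']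
      calc (1 - u) • I = ((1 - u) • I + u • Q) - u • Q := by abel
        _ = P - u • Q := by rw [h1]
        _ = (1 - u) • P + u • (P - Q) := by module
    exact smul_right_injective _ hu1'.ne' this
  have eJ : J = P + (1 / v) • (Q - P) := by
    have : v • J = v • (P + (1 / v) • (Q - P)) := by
      rw [smul_add, smul_smul, mul_one_div_cancel hv0'.ne', one_smul]
      have : Q = P + v • (J - P) := by rw [← hv]; abel
      nth_rewrite 1 [this]
      module
    exact smul_right_injective _ hv0'.ne' this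
  obtain ⟨s, hs⟩ : ∃ s, s = u / (1 - u) := ⟨_, rfl⟩
  obtain ⟨t, ht⟩ : ∃ t, t = 1 / v := ⟨_, rfl⟩
  rw [← hs] at eI
  rw [← ht] at eJ
  have hs0 : 0 < s := by rw [hs]; positivity
  have ht1 : 1 < t := by rw [ht, lt_div_iff₀ hv0']; linarith
  have r1 := ray_unique hK hc hP hs0 (by rw [← eI]; exact hI.1) (by rw [← eI]; exact hI.2)
  have r2 := ray_unique hK hc hP (by linarith : 0 < t) (by rw [← eJ]; exact hJ.1)
    (by rw [← eJ]; exact hJ.2)
  have e1 : {s : ℝ | 0 ≤ s ∧ P - s • (Q - P) ∈ K} = {s : ℝ | 0 ≤ s ∧ P + s • (P - Q) ∈ K} := by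
    ext r
    have : P - r • (Q - P) = P + r • (P - Q) := by rw [← neg_sub P Q, smul_neg, sub_neg_eq_add]
    simp only [mem_ofPred_eq, this]
  unfold hilbertDist
  rw [e1, r1, r2, csSup_Ico hs0, csSup_Ico (by linarith : (0:ℝ) < t)]
  obtain ⟨L, hL⟩ : ∃ L, L = Real.sqrt ((Q.1 - P.1)^2 + (Q.2 - P.2)^2) := ⟨_, rfl⟩
  have hLpos : 0 < L := by
    rw [hL]
    apply Real.sqrt_pos.2
    by_contra hh
    push Not at hh
    have h1 : Q.1 - P.1 = 0 := by nlinarith [sq_nonneg (Q.1 - P.1), sq_nonneg (Q.2 - P.2)]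
    have h2 : Q.2 - P.2 = 0 := by nlinarith [sq_nonneg (Q.1 - P.1), sq_nonneg (Q.2 - P.2)]
    exact hPQ (Prod.ext (by linarith) (by linarith))
  have hlen : ∀ (c : ℝ) (X Y : ℝ × ℝ), 0 ≤ c → X.1 - Y.1 = c * (Q.1 - P.1) →
      X.2 - Y.2 = c * (Q.2 - P.2) → Real.sqrt ((X.1 - Y.1)^2 + (X.2 - Y.2)^2) = c * L := by
    intro c X Y hc0 h1 h2
    rw [h1, h2, hL]
    have : (c * (Q.1 - P.1))^2 + (c * (Q.2 - P.2))^2 = c^2 * ((Q.1 - P.1)^2 + (Q.2 - P.2)^2) := by ring
    rw [this, Real.sqrt_mul (sq_nonneg c), Real.sqrt_sq hc0]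
  have hlen' : ∀ (c : ℝ) (X Y : ℝ × ℝ), 0 ≤ c → Y.1 - X.1 = c * (Q.1 - P.1) →
      Y.2 - X.2 = c * (Q.2 - P.2) → Real.sqrt ((X.1 - Y.1)^2 + (X.2 - Y.2)^2) = c * L := by
    intro c X Y hc0 h1 h2
    rw [← hlen c Y X hc0 h1 h2]
    congr 1; ring
  have k1 := hlen' (1 + s) I Q (by linarith)
    (by rw [eI]; simp only [Prod.fst_add, Prod.smul_fst, Prod.fst_sub, smul_eq_mul]; ring)
    (by rw [eI]; simp only [Prod.snd_add, Prod.smul_snd, Prod.snd_sub, smul_eq_mul]; ring)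
  have k2 := hlen' t P J (by linarith)
    (by rw [eJ]; simp only [Prod.fst_add, Prod.smul_fst, Prod.fst_sub, smul_eq_mul]; ring)
    (by rw [eJ]; simp only [Prod.snd_add, Prod.smul_snd, Prod.snd_sub, smul_eq_mul]; ring)
  have k3 := hlen' s I P (by linarith)
    (by rw [eI]; simp only [Prod.fst_add, Prod.smul_fst, Prod.fst_sub, smul_eq_mul]; ring)
    (by rw [eI]; simp only [Prod.snd_add, Prod.smul_snd, Prod.snd_sub, smul_eq_mul]; ring)
  have k4 := hlen' (t - 1) Q J (by linarith)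
    (by rw [eJ]; simp only [Prod.fst_add, Prod.smul_fst, Prod.fst_sub, smul_eq_mul]; ring)
    (by rw [eJ]; simp only [Prod.snd_add, Prod.smul_snd, Prod.snd_sub, smul_eq_mul]; ring)
  rw [k1, k2, k3, k4]
  congr 2
  have : 0 < t - 1 := by linarith
  field_simp

/-- Sanity check: reverse altitudes always exist. -/
theorem exists_isReverseAltitude {K : Set (ℝ × ℝ)} (hK : IsOpen K) (hc : Convex ℝ K)
    (hb : Bornology.IsBounded K) {A B C : ℝ × ℝ} (hA : A ∈ K) (hB : B ∈ K) (hC : C ∈ K)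
    (hBC : B ≠ C) : ∃ m, IsReverseAltitude K A B C m := by
  obtain ⟨σ, hσ, τ, hτ, f, hf, g, hg, hI, hJ, hfI, hgJ⟩ := exists_chord hK hc hb hA hB hBC
  have hB0 : B + (0:ℝ) • (C - B) = B := by simp
  have hC1 : B + (1:ℝ) • (C - B) = C := by simp
  obtain ⟨-, -, h3, h4⟩ := HE_on_chord hK hc hb hf hg hσ hτ hB hI hJ hfI hgJ
    (θ := 0) (φ := 1) (by rw [hB0]; exact hB) (by rw [hC1]; exact hC) one_pos
  rw [hB0, hC1] at h3 h4
  have fA := Pol_pos hK hf hA
  have gA := Pol_pos hK hg hA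
  have fB := Pol_pos hK hf hB
  have gB := Pol_pos hK hg hB
  set k := row f g (ev g A) (ev f A) with hk
  have hkA : ev k A = 0 := by rw [hk, ev_row]; ring
  obtain ⟨κ, hκ⟩ : ∃ κ, κ = ev k C - ev k B := ⟨_, rfl⟩
  have hκpos : 0 < κ := by
    rw [hκ, hk, ev_row, ev_row]
    have h5 : 0 < ev g A * (ev f C - ev f B) := mul_pos gA (by linarith)
    have h6 : 0 < ev f A * (ev g B - ev g C) := mul_pos fA (by linarith)
    linarith
  have hkI : ev k (B + σ • (B - C)) < 0 := by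
    rw [hk, ev_row, hfI, mul_zero, zero_sub]
    have : 0 < ev g (B + σ • (B - C)) := by
      rw [ev_add_smul_sub]
      have := mul_pos hσ (sub_pos.2 h4)
      linarith
    have := mul_pos fA this
    linarith
  have hkJ : 0 < ev k (B + τ • (C - B)) := by
    rw [hk, ev_row, hgJ, mul_zero, sub_zero]
    have : 0 < ev f (B + τ • (C - B)) := by
      rw [ev_add_smul_sub]
      have := mul_pos hτ (sub_pos.2 h3)
      linarith
    exact mul_pos gA this
  rw [ev_add_smul_sub] at hkI hkJ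
  obtain ⟨φ, hφ⟩ : ∃ φ, φ = -ev k B / κ := ⟨_, rfl⟩
  have hφ' : ev k B + φ * κ = 0 := by rw [hφ]; field_simp; ring
  have hφσ : -σ < φ := by
    by_contra hh
    push Not at hh
    have : φ * κ ≤ -σ * κ := by gcongr
    rw [hκ] at this hφ'
    linarith
  have hφτ : φ < τ := by
    by_contra hh
    push Not at hh
    have : τ * κ ≤ φ * κ := by gcongr
    rw [hκ] at this hφ'
    linarith
  have hBint : B ∈ interior K := by rwa [hK.interior_eq]
  have hF : B + φ • (C - B) ∈ K := by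
    rcases lt_trichotomy φ 0 with h | h | h
    · have := hc.openSegment_interior_closure_subset_interior hBint hI
      rw [hK.interior_eq] at this
      apply this
      refine ⟨1 - (-φ/σ), -φ/σ, ?_, by apply div_pos <;> linarith, by ring, ?_⟩
      · rw [sub_pos, div_lt_one hσ]; linarith
      · have e : -φ / σ * σ = -φ := by field_simp
        rw [smul_add, smul_smul, e]
        module
    · rw [h, zero_smul, add_zero]; exact hB
    · have := hc.openSegment_interior_closure_subset_interior hBint hJ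
      rw [hK.interior_eq] at this
      apply this
      refine ⟨1 - φ/τ, φ/τ, ?_, by positivity, by ring, ?_⟩
      · rw [sub_pos, div_lt_one hτ]; exact hφτ
      · have e : φ / τ * τ = φ := by field_simp
        rw [smul_add, smul_smul, e]
        module
  set F := B + φ • (C - B) with hFdef
  have hkF : ev k F = 0 := by rw [hFdef, ev_add_smul_sub, ← hκ]; exact hφ'
  set w : ℝ × ℝ := (-k.2.2, k.2.1) with hw
  have hN : 0 < k.2.1^2 + k.2.2^2 := by
    by_contra h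
    push Not at h
    have h1 : k.2.1 = 0 := by nlinarith [sq_nonneg k.2.1, sq_nonneg k.2.2]
    have h2 : k.2.2 = 0 := by nlinarith [sq_nonneg k.2.1, sq_nonneg k.2.2]
    have : κ = 0 := by rw [hκ]; simp only [ev]; rw [h1, h2]; ring
    linarith
  have hw0 : w ≠ 0 := by
    intro h
    have h1 : -k.2.2 = 0 := congrArg Prod.fst h
    have h2 : k.2.1 = 0 := congrArg Prod.snd h
    rw [h2, neg_eq_zero.1 h1] at hN
    simp at hN
  have hkw : lin k w = 0 := by simp only [lin, hw]; ring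
  refine ⟨AffineSubspace.mk' F (Submodule.span ℝ {w}), ?_, ?_, F, hF, ?_, ?_, ?_⟩
  · rw [AffineSubspace.direction_mk']
    exact finrank_span_singleton hw0
  · rw [AffineSubspace.mem_mk', vsub_eq_sub, Submodule.mem_span_singleton]
    have hl : lin k (A - F) = 0 := by rw [lin_sub, hkA, hkF]; ring
    refine ⟨((A - F).2 * k.2.1 - (A - F).1 * k.2.2)/(k.2.1^2 + k.2.2^2), ?_⟩
    simp only [lin] at hl
    ext
    · simp only [hw, Prod.smul_fst, smul_eq_mul]
      field_simp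
      linear_combination (-k.2.1) * hl
    · simp only [hw, Prod.smul_snd, smul_eq_mul]
      field_simp
      linear_combination (-k.2.2) * hl
  · rw [mem_line_iff]; exact ⟨φ, rfl⟩
  · exact AffineSubspace.self_mem_mk' _ _
  · intro X hX hXK Y hY hYK
    rw [mem_line_iff] at hX
    obtain ⟨θ, rfl⟩ := hX
    rw [AffineSubspace.mem_mk', vsub_eq_sub, Submodule.mem_span_singleton] at hY
    obtain ⟨c, hcz⟩ := hY
    have hz' : Y = F + c • w := by rw [hcz]; abel
    have hkY : ev k Y = 0 := by rw [hz', ev_add_smul, hkF, hkw]; ring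
    rw [hk, ev_row] at hkY hkF
    have fF := Pol_pos hK hf hF
    have gF := Pol_pos hK hg hF
    refine foot_le hK hc hb hf hg hσ hτ hB hI hJ hfI hgJ hXK hF hYK ?_
    have h1 : ev f A * (ev g F * ev f Y) = ev f A * (ev f F * ev g Y) := by
      linear_combination (ev f F) * hkY - (ev f Y) * hkF
    exact mul_left_cancel₀ fA.ne' h1

/-- what a reverse altitude says about supporting functionals at the ends of the side line -/
lemma altitude_side {K : Set (ℝ × ℝ)} {O : ℝ × ℝ} (hK : IsOpen K) (hc : Convex ℝ K)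
    (hb : Bornology.IsBounded K) (hO : O ∈ K) {A B C : ℝ × ℝ} (hB : B ∈ K) (hC : C ∈ K)
    (hBC : B ≠ C) {m : AffineSubspace ℝ (ℝ × ℝ)} (hm : IsReverseAltitude K A B C m) :
    ∃ σ : ℝ, 0 < σ ∧ ∃ τ : ℝ, 0 < τ ∧ ∃ f ∈ Pol K O, ∃ g ∈ Pol K O,
      B + σ • (B - C) ∈ closure K ∧ C + τ • (C - B) ∈ closure K ∧
      ev f (B + σ • (B - C)) = 0 ∧ ev g (C + τ • (C - B)) = 0 ∧
      (∀ z ∈ m, ev (row f g (ev g A) (ev f A)) z = 0) ∧
      ∃ w : ℝ × ℝ, w ≠ 0 ∧ m.direction = Submodule.span ℝ {w} ∧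
        lin (row f g (ev g A) (ev f A)) w = 0 := by
  obtain ⟨hrank, hAm, F, hF, hFl, hFm, hperp⟩ := hm
  obtain ⟨σ, hσ, -, hI, hI'⟩ := exists_ray hK hc hb hB (sub_ne_zero.2 hBC)
  obtain ⟨τ, hτ, hτ2, hJ, hJ'⟩ := exists_ray hK hc hb hB (sub_ne_zero.2 hBC.symm)
  have hτ1 : 1 < τ := by
    have : (1:ℝ) ∈ {t : ℝ | 0 ≤ t ∧ B + t • (C - B) ∈ K} := by simp [hC]
    rw [hτ2] at this
    exact this.2
  rw [mem_line_iff] at hFl
  obtain ⟨φ, hφ⟩ := hFl
  obtain ⟨w, hw0, hspan⟩ := finrank_eq_one_iff'.1 hrank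
  have hdir : m.direction = Submodule.span ℝ {(w : ℝ × ℝ)} := by
    apply le_antisymm
    · intro v hv
      obtain ⟨c, hc'⟩ := hspan ⟨v, hv⟩
      rw [Submodule.mem_span_singleton]
      exact ⟨c, congrArg Subtype.val hc'⟩
    · rw [Submodule.span_singleton_le_iff_mem]
      exact w.2
  have hw0' : (w : ℝ × ℝ) ≠ 0 := fun h => hw0 (Subtype.ext h)
  have hmem : ∀ s : ℝ, F + s • (w : ℝ × ℝ) ∈ m := by
    intro s
    have : s • (w : ℝ × ℝ) ∈ m.direction := m.direction.smul_mem s w.2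
    have := AffineSubspace.vadd_mem_of_mem_direction this hFm
    rwa [vadd_eq_add, add_comm] at this
  subst hφ
  obtain ⟨f, hf, g, hg, hfI, hgJ, hrel⟩ := necessity hK hc hb hO hB hσ hτ hI hI' hJ hJ' hF
    (w : ℝ × ℝ) (by
      intro θ s hθ hs
      exact hperp _ ((mem_line_iff _ _ _).2 ⟨θ, rfl⟩) hθ _ (hmem s) hs)
  have hform : ∀ z ∈ m, ∃ c : ℝ, z = B + φ • (C - B) + c • (w : ℝ × ℝ) := by
    intro z hz
    have := AffineSubspace.vsub_mem_direction hz hFm
    rw [hdir, Submodule.mem_span_singleton] at this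
    obtain ⟨c, hc'⟩ := this
    exact ⟨c, by rw [hc', vsub_eq_sub]; abel⟩
  have hJe : C + (τ - 1) • (C - B) = B + τ • (C - B) := by module
  obtain ⟨cA, hcA⟩ := hform A hAm
  refine ⟨σ, hσ, τ - 1, by linarith, f, hf, g, hg, hI, by rw [hJe]; exact hJ, hfI,
    by rw [hJe]; exact hgJ, ?_, (w : ℝ × ℝ), hw0', hdir, ?_⟩
  · intro z hz
    obtain ⟨c, hc'⟩ := hform z hz
    rw [ev_row, hcA, hc']
    simp only [ev_add_smul _ (B + φ • (C - B))]
    linear_combination (c - cA) * hrel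
  · rw [lin_row, hcA]
    simp only [ev_add_smul _ (B + φ • (C - B))]
    linear_combination hrel

/-- If every triangle of a Hilbert plane has reverse altitudes from its three vertices that form
a pencil, then the domain is the interior of an ellipse. -/
theorem result (K : Set (ℝ × ℝ)) (hopen : IsOpen K) (hconv : Convex ℝ K)
    (hbdd : Bornology.IsBounded K) (hne : K.Nonempty)
    (h : ∀ A ∈ K, ∀ B ∈ K, ∀ C ∈ K, ¬ Collinear ℝ {A, B, C} →
      ∃ a b c : AffineSubspace ℝ (ℝ × ℝ), IsReverseAltitude K A B C a ∧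
        IsReverseAltitude K B C A b ∧ IsReverseAltitude K C A B c ∧ IsPencil a b c) :
    ∃ f : (ℝ × ℝ) ≃ᵃ[ℝ] (ℝ × ℝ), K = f '' {p : ℝ × ℝ | p.1 ^ 2 + p.2 ^ 2 < 1} := by
  obtain ⟨O, hO⟩ := hne
  apply ellipse_of_cyclic hopen hconv hbdd hO
  intro p q r tp tq tr hp hq hr hpq hqp hpr hrp hqr hrq
  obtain ⟨-, hΔ⟩ := det3_ne_zero hp.2.2.1 hq.2.2.1 hr.2.2.1 hpq hqp hpr hrp hqr hrq
  obtain ⟨hdet, -⟩ := det3_ne_zero hq.2.2.1 hr.2.2.1 hp.2.2.1 hqr hrq hqp hpq hrp hpr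
  let e : ℕ → ℝ := fun n => 1 / ((n:ℝ) + 2)
  have he0 : ∀ n, 0 < e n := fun n => by positivity
  have he1 : ∀ n, e n < 1 := by
    intro n
    simp only [e]
    rw [div_lt_one (by positivity)]
    have : (0:ℝ) ≤ n := Nat.cast_nonneg n
    linarith
  let U : Ultrafilter ℕ := Filter.hyperfilter ℕ
  have hU : (U : Filter ℕ) ≤ atTop := by
    rw [← Nat.cofinite_eq_atTop]; exact Filter.hyperfilter_le_cofinite
  have he : Tendsto e U (𝓝 0) := by
    have h1 : Tendsto (fun n : ℕ => 1 / ((n:ℝ) + 2)) atTop (𝓝 0) := by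
      have h2 : Tendsto (fun n : ℕ => ((n:ℝ) + 2)) atTop atTop :=
        tendsto_atTop_add_const_right _ _ tendsto_natCast_atTop_atTop
      have := h2.inv_tendsto_atTop
      refine this.congr (fun n => ?_)
      simp
    exact h1.mono_left hU
  let A : ℕ → ℝ × ℝ := fun n => toward O (e n) p
  let B : ℕ → ℝ × ℝ := fun n => toward O (e n) q
  let C : ℕ → ℝ × ℝ := fun n => toward O (e n) r
  have hA : ∀ n, A n ∈ K := fun n => toward_mem hopen hconv hO hp.1 (he0 n) (he1 n)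
  have hB : ∀ n, B n ∈ K := fun n => toward_mem hopen hconv hO hq.1 (he0 n) (he1 n)
  have hC : ∀ n, C n ∈ K := fun n => toward_mem hopen hconv hO hr.1 (he0 n) (he1 n)
  have hdetn : ∀ n, detP (A n) (B n) (C n) ≠ 0 := by
    intro n
    simp only [A, B, C]
    rw [detP_toward]
    have : (1 - e n) ≠ 0 := by have := he1 n; intro h; linarith
    exact mul_ne_zero (pow_ne_zero 2 this) hΔ
  have hAB : ∀ n, A n ≠ B n := by
    intro n h
    apply hdetn n
    rw [h]; simp [detP]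
  have hBC : ∀ n, B n ≠ C n := by
    intro n h
    apply hdetn n
    rw [h]; simp only [detP]; ring
  have hCA : ∀ n, C n ≠ A n := by
    intro n h
    apply hdetn n
    rw [h]; simp only [detP]; ring
  have H := fun n => h (A n) (hA n) (B n) (hB n) (C n) (hC n) (not_collinear_of_detP (hdetn n))
  choose a b c ha' hb' hc' hpen using H
  have s1 := fun n => altitude_side hopen hconv hbdd hO (hB n) (hC n) (hBC n) (ha' n)
  have s2 := fun n => altitude_side hopen hconv hbdd hO (hC n) (hA n) (hCA n) (hb' n)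
  have s3 := fun n => altitude_side hopen hconv hbdd hO (hA n) (hB n) (hAB n) (hc' n)
  choose σ1 hσ1 τ1 hτ1 f1 hf1 g1 hg1 hI1 hJ1 hfI1 hgJ1 hℓ1 w1 hw1 hdir1 hlin1 using s1
  choose σ2 hσ2 τ2 hτ2 f2 hf2 g2 hg2 hI2 hJ2 hfI2 hgJ2 hℓ2 w2 hw2 hdir2 hlin2 using s2
  choose σ3 hσ3 τ3 hτ3 f3 hf3 g3 hg3 hI3 hJ3 hfI3 hgJ3 hℓ3 w3 hw3 hdir3 hlin3 using s3
  let k1 : ℕ → ℝ × ℝ × ℝ := fun n => row (f1 n) (g1 n) (ev (g1 n) (A n)) (ev (f1 n) (A n))
  let k2 : ℕ → ℝ × ℝ × ℝ := fun n => row (f2 n) (g2 n) (ev (g2 n) (B n)) (ev (f2 n) (B n))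
  let k3 : ℕ → ℝ × ℝ × ℝ := fun n => row (f3 n) (g3 n) (ev (g3 n) (C n)) (ev (f3 n) (C n))
  have hdet0 : ∀ n, det3 (k1 n) (k2 n) (k3 n) = 0 := by
    intro n
    rcases hpen n with ⟨P, hP1, hP2, hP3⟩ | ⟨hd1, hd2⟩
    · exact det3_eq_zero_of_common (hℓ1 n P hP1) (hℓ2 n P hP2) (hℓ3 n P hP3)
    · have h12 : w1 n ∈ Submodule.span ℝ {w2 n} := by
        rw [← hdir2 n, ← hd1, hdir1 n]; exact Submodule.mem_span_singleton_self _
      have h13 : w1 n ∈ Submodule.span ℝ {w3 n} := by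
        rw [← hdir3 n, ← hd2, ← hd1, hdir1 n]; exact Submodule.mem_span_singleton_self _
      rw [Submodule.mem_span_singleton] at h12 h13
      obtain ⟨c2, hc2⟩ := h12
      obtain ⟨c3, hc3⟩ := h13
      have esmul : ∀ (k : ℝ × ℝ × ℝ) (c : ℝ) (w : ℝ × ℝ), lin k (c • w) = c * lin k w := by
        intro k c w; simp only [lin, Prod.smul_fst, Prod.smul_snd, smul_eq_mul]; ring
      refine det3_eq_zero_of_parallel (hw1 n) (hlin1 n) ?_ ?_
      · rw [← hc2, esmul]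
        simp only [k2]
        rw [hlin2 n, mul_zero]
      · rw [← hc3, esmul]
        simp only [k3]
        rw [hlin3 n, mul_zero]
  obtain ⟨lf1, -⟩ := pair_limit hopen hO (U := U) hq hr.1 hqr he0 he1 he hf1 hσ1 hI1 hfI1
  obtain ⟨lg1, -⟩ := pair_limit hopen hO (U := U) hr hq.1 hrq he0 he1 he hg1 hτ1 hJ1 hgJ1
  obtain ⟨lf2, -⟩ := pair_limit hopen hO (U := U) hr hp.1 hrp he0 he1 he hf2 hσ2 hI2 hfI2
  obtain ⟨lg2, -⟩ := pair_limit hopen hO (U := U) hp hr.1 hpr he0 he1 he hg2 hτ2 hJ2 hgJ2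
  obtain ⟨lf3, -⟩ := pair_limit hopen hO (U := U) hp hq.1 hpq he0 he1 he hf3 hσ3 hI3 hfI3
  obtain ⟨lg3, -⟩ := pair_limit hopen hO (U := U) hq hp.1 hqp he0 he1 he hg3 hτ3 hJ3 hgJ3
  have lA : Tendsto A U (𝓝 p) := tendsto_toward he p
  have lB : Tendsto B U (𝓝 q) := tendsto_toward he q
  have lC : Tendsto C U (𝓝 r) := tendsto_toward he r
  have ldet := tendsto_det3
    (tendsto_row lf1 lg1 (tendsto_ev lg1 lA) (tendsto_ev lf1 lA))
    (tendsto_row lf2 lg2 (tendsto_ev lg2 lB) (tendsto_ev lf2 lB))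
    (tendsto_row lf3 lg3 (tendsto_ev lg3 lC) (tendsto_ev lf3 lC))
  have hdetlim := tendsto_nhds_unique ldet
    ((tendsto_const_nhds (x := (0:ℝ))).congr (fun n => (hdet0 n).symm))
  rw [det3_row] at hdetlim
  have hprod := (mul_eq_zero.1 hdetlim).resolve_right hdet
  linarith

end Pool.Agent.Results.MP_df1f63_gt.ReverseAltitudes
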